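import Pool.Agent.Helper6.AK.DGoals

/-! Packet 4739, AKD-FIXP: the expected number of fixed points of a power of a random even
permutation. -/

namespace Pool.Agent.Helper40.AK.FIXP

open Equiv Finset Pool.Agent.Helper15.An

theorem ret_step {β : Type*} [DecidableEq β] (σ : Perm (Option β)) (a : β)
    (ha : σ none = some a) (j : ℕ) :
    (∃ e, 1 ≤ e ∧ e ≤ j ∧ ((removeNone σ : Perm β) ^ e) a = a) ∨
      (σ ^ (j + 1)) none = some (((removeNone σ : Perm β) ^ j) a) := by
  induction j with
  | zero => right; simpa using ha
  | succ j ih =>
    rcases ih with ⟨e, h1, h2, h3⟩ | ih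
    · exact Or.inl ⟨e, h1, by omega, h3⟩
    · rw [pow_succ', Perm.mul_apply, ih, pow_succ', Perm.mul_apply]
      rcases h : σ (some (((removeNone σ : Perm β) ^ j) a)) with _ | x
      · left
        refine ⟨j + 1, by omega, le_refl _, ?_⟩
        have h1 := removeNone_none σ h
        rw [ha] at h1
        rw [pow_succ', Perm.mul_apply]
        exact Option.some_injective _ h1
      · right
        have h1 := removeNone_some σ ⟨x, h⟩
        rw [← h, h1]

open Classical in
/-- the permutations under which the point returns within `m` steps -/
noncomputable def Ret (α : Type) [Fintype α] [DecidableEq α] (m : ℕ) (v : α) :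
    Finset (Perm α) := Finset.univ.filter fun σ => ∃ d, 1 ≤ d ∧ d ≤ m ∧ (σ ^ d) v = v

theorem ret_mem {α : Type} [Fintype α] [DecidableEq α] {m : ℕ} {v : α} {σ : Perm α} :
    σ ∈ Ret α m v ↔ ∃ d, 1 ≤ d ∧ d ≤ m ∧ (σ ^ d) v = v := by
  simp [Ret]

theorem ret_congr {α β : Type} [Fintype α] [DecidableEq α] [Fintype β] [DecidableEq β]
    (e : α ≃ β) (m : ℕ) (v : α) : (Ret α m v).card ≤ (Ret β m (e v)).card := by
  apply Finset.card_le_card_of_injOn (fun σ => e.permCongr σ)
  · intro σ hσ
    rw [Finset.mem_coe, ret_mem] at hσ ⊢
    obtain ⟨d, h1, h2, h3⟩ := hσ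
    refine ⟨d, h1, h2, ?_⟩
    have : (e.permCongr σ) ^ d = e.permCongr (σ ^ d) := by
      have := map_pow (e.permCongrHom) σ d
      exact this.symm
    show ((e.permCongr σ) ^ d) (e v) = e v
    rw [this]
    simp [Equiv.permCongr_apply, h3]
  · intro σ _ τ _ h
    exact e.permCongr.injective h

theorem ret_option (m : ℕ) : ∀ (β : Type) [Fintype β] [DecidableEq β],
    (Ret (Option β) m none).card ≤ m * (Fintype.card β).factorial := by
  induction m with
  | zero =>
    intro β _ _
    have : Ret (Option β) 0 none = ∅ := by
      ext σ
      rw [ret_mem]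
      constructor
      · rintro ⟨d, h1, h2, h3⟩
        omega
      · intro h; simp at h
    rw [this]; simp
  | succ m ih =>
    intro β _ _
    have hsub : (Ret (Option β) (m + 1) none).card ≤
        ((Finset.univ : Finset (Perm β)).map ⟨fun τ => ((none : Option β), τ), by
          intro a b h; simpa using h⟩ ∪ (Finset.univ : Finset β).biUnion (fun a =>
          (Ret β m a).map ⟨fun τ => ((some a : Option β), τ), by
          intro a b h; simpa using h⟩)).card := by
      apply Finset.card_le_card_of_injOn (fun σ => Equiv.Perm.decomposeOption σ)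
      · intro σ hσ
        rw [Finset.mem_coe, ret_mem] at hσ
        obtain ⟨d, h1, h2, h3⟩ := hσ
        rw [Finset.mem_coe]
        have hdec : Equiv.Perm.decomposeOption σ = (σ none, (removeNone σ : Perm β)) := rfl
        show Equiv.Perm.decomposeOption σ ∈ _
        rw [hdec]
        rcases h : σ none with _ | a
        · apply Finset.mem_union_left
          rw [Finset.mem_map]
          exact ⟨removeNone σ, Finset.mem_univ _, rfl⟩
        · apply Finset.mem_union_right
          rw [Finset.mem_biUnion]
          refine ⟨a, Finset.mem_univ _, ?_⟩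
          rw [Finset.mem_map]
          refine ⟨removeNone σ, ?_, rfl⟩
          rw [ret_mem]
          obtain ⟨j, rfl⟩ : ∃ j, d = j + 1 := ⟨d - 1, by omega⟩
          rcases ret_step σ a h j with ⟨e, g1, g2, g3⟩ | g
          · exact ⟨e, g1, by omega, g3⟩
          · rw [h3] at g
            exact absurd g (by simp)
      · intro σ _ τ _ h
        exact Equiv.Perm.decomposeOption.injective h
    refine hsub.trans ?_
    refine (Finset.card_union_le _ _).trans ?_
    rw [Finset.card_map, Finset.card_univ, Fintype.card_perm]
    have h2 : ((Finset.univ : Finset β).biUnion (fun a =>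
          (Ret β m a).map ⟨fun τ => ((some a : Option β), τ), by
          intro a b h; simpa using h⟩)).card ≤ m * (Fintype.card β).factorial := by
      refine Finset.card_biUnion_le.trans ?_
      rcases Nat.eq_zero_or_pos (Fintype.card β) with h0 | h0
      · have : IsEmpty β := Fintype.card_eq_zero_iff.mp h0
        simp
      · have h3 : ∀ a ∈ (Finset.univ : Finset β), ((Ret β m a).map
            ⟨fun τ => ((some a : Option β), τ), by intro a b h; simpa using h⟩ :
              Finset (Option β × Perm β)).card ≤ m * (Fintype.card β - 1).factorial := by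
          intro a _
          rw [Finset.card_map]
          have h4 := ret_congr (Equiv.optionSubtypeNe a).symm m a
          have h5 : (Equiv.optionSubtypeNe a).symm a = none := by simp
          rw [h5] at h4
          refine h4.trans ((ih _).trans ?_)
          have h6 : Fintype.card {b : β // b ≠ a} = Fintype.card β - 1 := by
            rw [Fintype.card_subtype_compl, Fintype.card_subtype_eq]
          rw [h6]
        refine (Finset.sum_le_card_nsmul _ _ _ h3).trans ?_
        rw [Finset.card_univ, smul_eq_mul]
        have h7 := Nat.mul_factorial_pred (n := Fintype.card β) (by omega)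
        calc Fintype.card β * (m * (Fintype.card β - 1).factorial)
            = m * (Fintype.card β * (Fintype.card β - 1).factorial) := by ring
          _ = m * (Fintype.card β).factorial := by rw [h7]
          _ ≤ _ := le_refl _
    calc _ ≤ (Fintype.card β).factorial + m * (Fintype.card β).factorial := by gcongr
      _ = (m + 1) * (Fintype.card β).factorial := by ring

theorem ret_fin {α : Type} [Fintype α] [DecidableEq α] (m : ℕ) (v : α) :
    (Ret α m v).card ≤ m * (Fintype.card α - 1).factorial := by
  have h4 := ret_congr (Equiv.optionSubtypeNe v).symm m v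
  have h5 : (Equiv.optionSubtypeNe v).symm v = none := by simp
  rw [h5] at h4
  refine h4.trans ((ret_option m _).trans ?_)
  have h6 : Fintype.card {b : α // b ≠ v} = Fintype.card α - 1 := by
    rw [Fintype.card_subtype_compl, Fintype.card_subtype_eq]
  rw [h6]

theorem thm : Pool.Agent.Helper6.AK.S_FIXP := by
  intro n hn m hm
  have h1 : ∑ z : Alt n, fixc ((z : Perm (Fin n)) ^ m) ≤
      ∑ z : Perm (Fin n), fixc (z ^ m) := by
    have h2 : ∑ z : Alt n, fixc ((z : Perm (Fin n)) ^ m) =
        ∑ z ∈ (Finset.univ : Finset (Alt n)).map ⟨Subtype.val, Subtype.val_injective⟩,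
          fixc (z ^ m) := by
      rw [Finset.sum_map]
      rfl
    rw [h2]
    exact Finset.sum_le_sum_of_subset (Finset.subset_univ _)
  refine h1.trans ?_
  have h3 : ∑ z : Perm (Fin n), fixc (z ^ m) ≤ n * (m * (n - 1).factorial) := by
    unfold fixc
    have h4 : ∑ z : Perm (Fin n), (Finset.univ.filter fun x : Fin n => (z ^ m) x = x).card =
        ∑ x : Fin n, (Finset.univ.filter fun z : Perm (Fin n) => (z ^ m) x = x).card := by
      simp only [Finset.card_filter]
      exact Finset.sum_comm
    rw [h4]
    have h5 : ∀ x ∈ (Finset.univ : Finset (Fin n)),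
        (Finset.univ.filter fun z : Perm (Fin n) => (z ^ m) x = x).card ≤
          m * (n - 1).factorial := by
      intro x _
      have h6 := ret_fin m x
      rw [Fintype.card_fin] at h6
      refine le_trans (Finset.card_le_card ?_) h6
      intro z hz
      rw [Finset.mem_filter] at hz
      rw [ret_mem]
      exact ⟨m, hm, le_refl _, hz.2⟩
    refine (Finset.sum_le_card_nsmul _ _ _ h5).trans ?_
    rw [Finset.card_univ, Fintype.card_fin, smul_eq_mul]
  refine h3.trans ?_
  have : Nontrivial (Fin n) := Fin.nontrivial_iff_two_le.mpr hn
  have h8 : 2 * Fintype.card (Alt n) = n.factorial := by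
    have := two_mul_card_alternatingGroup (α := Fin n)
    rw [Fintype.card_perm, Fintype.card_fin] at this
    convert this using 2
  have h7 := Nat.mul_factorial_pred (n := n) (by omega)
  calc n * (m * (n - 1).factorial) = m * (n * (n - 1).factorial) := by ring
    _ = m * n.factorial := by rw [h7]
    _ = m * (2 * Fintype.card (Alt n)) := by rw [h8]
    _ = 2 * m * Fintype.card (Alt n) := by ring
    _ ≤ _ := le_refl _

end Pool.Agent.Helper40.AK.FIXP
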